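import Pool.Agent.Helper77.OF4.St

/-!
# MP_7a9ddc_co, project OF4, module CH: the potential of the merged map
-/

set_option autoImplicit false

namespace Pool.Agent.Helper6.OF4.CH

open Equiv Equiv.Perm Pool.Agent.Helper35.PM Pool.Agent.Helper77.HY Pool.Agent.Helper77.OF4

section

variable {D : Type} [Fintype D]

theorem minPer_pos (π : Perm D) (c : D) : 0 < Function.minimalPeriod π c := by
  classical
  apply Function.minimalPeriod_pos_of_mem_periodicPts
  refine ⟨orderOf π, orderOf_pos π, ?_⟩
  show (π)^[orderOf π] c = c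
  rw [Equiv.Perm.iterate_eq_pow, pow_orderOf_eq_one, Perm.coe_one, id]

theorem minPer_apply (π : Perm D) (c : D) :
    Function.minimalPeriod π (π c) = Function.minimalPeriod π c :=
  Function.minimalPeriod_apply (Function.minimalPeriod_pos_iff_mem_periodicPts.1 (minPer_pos π c))

theorem minPer_same (π : Perm D) {c d : D} (h : π.SameCycle c d) :
    Function.minimalPeriod π c = Function.minimalPeriod π d := by
  obtain ⟨k, rfl⟩ := h.exists_nat_pow_eq
  clear h
  induction k with
  | zero => simp
  | succ k ih => rw [pow_succ', Perm.mul_apply, minPer_apply, ← ih]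

open Classical in
/-- the sum over a cycle -/
theorem cyc_sum (π : Perm D) (g : D → ZMod 2) (c : D) :
    ∑ j ∈ Finset.range (Function.minimalPeriod π c), g ((π ^ j) c) =
      ∑ e ∈ Finset.univ.filter (fun e => π.SameCycle c e), g e := by
  have h1 : Finset.univ.filter (fun d => π.SameCycle c d) =
      (Finset.range (Function.minimalPeriod π c)).image (fun j => (π ^ j) c) := by
    ext d
    simp only [Finset.mem_filter, Finset.mem_univ, true_and, Finset.mem_image, Finset.mem_range]
    constructor
    · intro h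
      obtain ⟨k, hk⟩ := h.exists_nat_pow_eq
      refine ⟨k % Function.minimalPeriod π c, Nat.mod_lt _ (minPer_pos π c), ?_⟩
      rw [← hk, ← Equiv.Perm.iterate_eq_pow, ← Equiv.Perm.iterate_eq_pow]
      exact Function.iterate_mod_minimalPeriod_eq
    · rintro ⟨k, _, hk⟩
      exact ⟨k, by rw [zpow_natCast]; exact hk⟩
  rw [h1, Finset.sum_image]
  intro i hi j hj hij
  have hi' : i < Function.minimalPeriod π c := by simpa using hi
  have hj' : j < Function.minimalPeriod π c := by simpa using hj
  have hij' : (π)^[i] c = (π)^[j] c := by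
    rw [Equiv.Perm.iterate_eq_pow, Equiv.Perm.iterate_eq_pow]
    exact hij
  exact Function.iterate_injOn_Iio_minimalPeriod hi' hj' hij'

open Classical in
/-- choice of one element in every odd cycle -/
theorem sel (φ : Perm D) (O : Finset D)
    (hO : ∀ d, Odd (Function.minimalPeriod φ d) → ∃ o ∈ O, φ.SameCycle o d) :
    ∃ O' : Finset D, O' ⊆ O ∧ ∀ d, ∑ e ∈ Finset.univ.filter (fun e => φ.SameCycle d e),
      (if e ∈ O' then (1 : ZMod 2) else 0) = (Function.minimalPeriod φ d : ZMod 2) := by
  rcases isEmpty_or_nonempty D with hE | hE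
  · exact ⟨∅, Finset.empty_subset _, fun d => (hE.false d).elim⟩
  let S : D → Finset D := fun d => O.filter (fun o => φ.SameCycle o d)
  have mS : ∀ d o, o ∈ S d ↔ o ∈ O ∧ φ.SameCycle o d := by
    intro d o
    simp only [S, Finset.mem_filter]
  have hS : ∀ d d', φ.SameCycle d d' → S d = S d' := by
    intro d d' h
    ext o
    rw [mS, mS]
    constructor
    · rintro ⟨h1, h2⟩
      exact ⟨h1, h2.trans h⟩
    · rintro ⟨h1, h2⟩
      exact ⟨h1, h2.trans h.symm⟩
  have hF : ∀ T : Finset D, ∃ x : D, T.Nonempty → x ∈ T := by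
    intro T
    by_cases h : T.Nonempty
    · exact ⟨h.choose, fun _ => h.choose_spec⟩
    · exact ⟨Classical.choice hE, fun h' => absurd h' h⟩
  choose F hF using hF
  have hFS : ∀ d, Odd (Function.minimalPeriod φ d) → F (S d) ∈ O ∧ φ.SameCycle (F (S d)) d := by
    intro d hd
    obtain ⟨o, ho, hod⟩ := hO d hd
    exact (mS _ _).1 (hF (S d) ⟨o, (mS _ _).2 ⟨ho, hod⟩⟩)
  refine ⟨(Finset.univ.filter (fun d => Odd (Function.minimalPeriod φ d))).image
    (fun d => F (S d)), ?_, ?_⟩
  · intro x hx
    obtain ⟨d, hd, rfl⟩ := Finset.mem_image.1 hx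
    exact (hFS d (Finset.mem_filter.1 hd).2).1
  · intro d
    have key : ∀ e, φ.SameCycle d e → e ∈ (Finset.univ.filter
        (fun d => Odd (Function.minimalPeriod φ d))).image (fun d => F (S d)) →
        Odd (Function.minimalPeriod φ d) ∧ e = F (S d) := by
      intro e he hx
      obtain ⟨d', hd', rfl⟩ := Finset.mem_image.1 hx
      have hd'' := (Finset.mem_filter.1 hd').2
      have h1 : φ.SameCycle d d' := he.trans (hFS d' hd'').2
      refine ⟨?_, ?_⟩
      · rw [minPer_same φ h1]
        exact hd''
      · show F (S d') = F (S d)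
        rw [hS d d' h1]
    by_cases hd : Odd (Function.minimalPeriod φ d)
    · rw [Finset.sum_eq_single (F (S d))]
      · rw [if_pos (Finset.mem_image.2 ⟨d, Finset.mem_filter.2 ⟨Finset.mem_univ _, hd⟩, rfl⟩)]
        exact ((ZMod.natCast_eq_one_iff_odd).2 hd).symm
      · intro e he hne
        refine if_neg (fun h => hne ?_)
        exact (key e (Finset.mem_filter.1 he).2 h).2
      · intro h
        exact absurd (Finset.mem_filter.2 ⟨Finset.mem_univ _, (hFS d hd).2.symm⟩) h
    · rw [Finset.sum_eq_zero]
      · exact ((ZMod.natCast_eq_zero_iff_even).2 (Nat.not_odd_iff_even.1 hd)).symm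
      · intro e he
        refine if_neg (fun h => hd ?_)
        exact (key e (Finset.mem_filter.1 he).2 h).1

end

theorem main (hPP : Pool.Agent.Helper64.OF.StPP) : StCh := by
  intro V D _ M k W hCl
  classical
  obtain ⟨r', O, hPl, hr, htr, ⟨hOk, hO⟩, hOW⟩ := hCl
  let _ := Fintype.ofFinite D
  obtain ⟨O', hO'O, hO'⟩ := sel (r' * M.inv.toPerm) O hO
  let s : D → ZMod 2 := fun e => if r' e ∈ O' then 1 else 0
  have hs : ∀ e, s e = if r' e ∈ O' then 1 else 0 := fun e => rfl
  -- the darts at `W`
  have hW1 : ∀ d, M.t d ∉ W → M.t (r' d) ∉ W := by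
    intro d hd
    rw [hr d hd, M.t_r]
    exact hd
  have hW2 : ∀ d, M.t d ∈ W → M.t (r' d) ∈ W := by
    intro d hd
    by_contra hcon
    let N : Finset D := Finset.univ.filter (fun e => M.t e ∉ W)
    have hN : ∀ e, e ∈ N ↔ M.t e ∉ W := by
      intro e
      simp only [N, Finset.mem_filter, Finset.mem_univ, true_and]
    have h1 : N.image r' = N := by
      apply Finset.eq_of_subset_of_card_le
      · intro x hx
        obtain ⟨e, he, rfl⟩ := Finset.mem_image.1 hx
        exact (hN _).2 (hW1 e ((hN e).1 he))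
      · rw [Finset.card_image_of_injective _ r'.injective]
    have h2 : r' d ∈ N.image r' := by
      rw [h1]
      exact (hN _).2 hcon
    obtain ⟨e, he, hed⟩ := Finset.mem_image.1 h2
    have h3 := r'.injective hed
    subst h3
    exact (hN _).1 he hd
  have hW3 : ∀ d d', r'.SameCycle d d' → (M.t d ∈ W ↔ M.t d' ∈ W) := by
    intro d d' h
    obtain ⟨k, rfl⟩ := h.exists_nat_pow_eq
    clear h
    induction k with
    | zero => simp
    | succ k ih =>
      rw [pow_succ', Perm.mul_apply, ih]
      exact ⟨hW2 _, fun h => by_contra fun h' => hW1 _ h' h⟩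
  have hsW : ∀ e, M.t e ∉ W → s e = 0 := by
    intro e he
    rw [hs]
    exact if_neg (fun h => hW1 e he (hOW _ (hO'O h)))
  -- the potential along the faces
  obtain ⟨γ, hγ⟩ := hPP D (r' * M.inv.toPerm) (fun d => 1 + s (M.ι d)) (by
    intro d
    rw [Finset.sum_add_distrib, cyc_sum (r' * M.inv.toPerm) (fun d => s (M.ι d)) d]
    have h1 : ∑ e ∈ Finset.univ.filter (fun e => (r' * M.inv.toPerm).SameCycle d e), s (M.ι e) =
        ∑ e ∈ Finset.univ.filter (fun e => (r' * M.inv.toPerm).SameCycle d e),
          (if e ∈ O' then (1 : ZMod 2) else 0) := by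
      refine Finset.sum_equiv (r' * M.inv.toPerm) ?_ ?_
      · intro e
        simp only [Finset.mem_filter, Finset.mem_univ, true_and]
        rw [sameCycle_apply_right]
      · intro e _
        rfl
    rw [h1, hO' d, Finset.sum_const, Finset.card_range, nsmul_one]
    exact zadd_self _)
  -- the number of elements of `O'` is even
  have hD : ∑ _d : D, (1 : ZMod 2) = 0 := by
    refine Finset.sum_involution (fun d _ => M.ι d) ?_ ?_ ?_ ?_
    · intro d _
      decide
    · intro d _ _
      exact M.nofix d
    · intro d _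
      exact Finset.mem_univ _
    · intro d _
      exact M.inv d
  have hsum : ∑ d, s d = 0 := by
    have h1 : ∑ d, γ ((r' * M.inv.toPerm) d) = ∑ d, γ d :=
      Equiv.sum_comp (r' * M.inv.toPerm) γ
    have h2 : ∑ d, s (M.ι d) = ∑ d, s d := Equiv.sum_comp M.inv.toPerm s
    have h3 : ∑ d, γ ((r' * M.inv.toPerm) d) = ∑ d, γ d + (∑ _d : D, (1 : ZMod 2) +
        ∑ d, s (M.ι d)) := by
      rw [← Finset.sum_add_distrib, ← Finset.sum_add_distrib]
      exact Finset.sum_congr rfl fun d _ => hγ d
    rw [h1, hD, zero_add, h2] at h3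
    exact eq_zero_of_eq_add h3
  -- the potential along the rotation
  obtain ⟨α, hα⟩ := hPP D r' s (by
    intro d
    rw [cyc_sum r' s d]
    by_cases hd : M.t d ∈ W
    · rw [← hsum]
      refine Finset.sum_subset (Finset.subset_univ _) ?_
      intro e _ he
      apply hsW
      intro h
      exact he (Finset.mem_filter.2 ⟨Finset.mem_univ _, htr d e hd h⟩)
    · refine Finset.sum_eq_zero fun e he => hsW e ?_
      rw [← hW3 d e (Finset.mem_filter.1 he).2]
      exact hd)
  obtain ⟨q, hq1, hq2⟩ := Pool.Agent.Helper64.OF.coh hPl M.inv s (fun _ => 1) α γ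
    (fun _ => rfl) hα (by
      intro d
      have h := hγ d
      rw [← add_assoc] at h
      exact h)
  have hq3 : ∀ d, q (r' d) ≠ q d → r' d ∈ O' := by
    intro d hd
    by_contra h
    apply hd
    rw [hq1, hs, if_neg h, add_zero]
  refine ⟨r', q, hPl, hr, htr, hq2, ?_, ?_⟩
  · intro d hd
    by_contra h
    exact hW1 d h (hOW _ (hO'O (hq3 d hd)))
  · have h1 : ({d | q (r' d) ≠ q d} : Set D) ⊆ r' ⁻¹' (O' : Set D) := by
      intro d hd
      exact hq3 d hd
    calc ({d | q (r' d) ≠ q d} : Set D).ncard ≤ (r' ⁻¹' (O' : Set D)).ncard :=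
          Set.ncard_le_ncard h1 (Set.toFinite _)
      _ = (O' : Set D).ncard := by
          rw [← Equiv.image_symm_eq_preimage]
          exact Set.ncard_image_of_injective _ r'.symm.injective
      _ = O'.card := Set.ncard_coe_finset O'
      _ ≤ O.card := Finset.card_le_card hO'O
      _ ≤ k := hOk

end Pool.Agent.Helper6.OF4.CH
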